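import Mathlib

/-! A cost calculus for straight-line programs. -/

set_option autoImplicit false

namespace Pool.Agent.Lib.MP_8b1d3b_lc.Up

open Finset

variable {R : Type*} [CommRing R] {At : Set R}

/-- The first `n` values of `g` form a program with atoms `At`. -/
def Val (At : Set R) (g : ℕ → R) (n : ℕ) : Prop :=
  ∀ i < n, g i ∈ At ∨ ∃ a < i, ∃ b < i, g i = g a + g b ∨ g i = g a * g b

/-- Some program with at most `c` steps computes all elements of `T`. -/
def St (At T : Set R) (c : ℕ) : Prop :=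
  ∃ (g : ℕ → R) (n : ℕ), n ≤ c ∧ Val At g n ∧ ∀ x ∈ T, ∃ i < n, g i = x

/-- Given `A`, at most `c` further steps compute all elements of `B`. -/
def Reach (At A : Set R) (c : ℕ) (B : Set R) : Prop :=
  ∀ (T : Set R) (k : ℕ), A ⊆ T → St At T k → St At (T ∪ B) (k + c)

theorem St.mono {T T' : Set R} {c c' : ℕ} (h : St At T c) (hT : T' ⊆ T) (hc : c ≤ c') :
    St At T' c' := by
  obtain ⟨g, n, h1, h2, h3⟩ := h
  exact ⟨g, n, h1.trans hc, h2, fun x hx => h3 x (hT hx)⟩

theorem Val.snoc {g : ℕ → R} {n : ℕ} (h : Val At g n) {x : R}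
    (hx : x ∈ At ∨ ∃ a < n, ∃ b < n, x = g a + g b ∨ x = g a * g b) :
    Val At (Function.update g n x) (n + 1) := by
  intro i hi
  rcases (Nat.lt_succ_iff.1 hi).lt_or_eq with hi | rfl
  · rw [Function.update_of_ne hi.ne]
    refine (h i hi).imp id ?_
    rintro ⟨a, ha, b, hb, h1⟩
    refine ⟨a, ha, b, hb, ?_⟩
    rwa [Function.update_of_ne (ha.trans hi).ne, Function.update_of_ne (hb.trans hi).ne]
  · rw [Function.update_self]
    refine hx.imp id ?_
    rintro ⟨a, ha, b, hb, h1⟩
    refine ⟨a, ha, b, hb, ?_⟩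
    rwa [Function.update_of_ne ha.ne, Function.update_of_ne hb.ne]

theorem St.step {T : Set R} {k : ℕ} (h : St At T k) {x : R}
    (hx : x ∈ At ∨ ∃ a ∈ T, ∃ b ∈ T, x = a + b ∨ x = a * b) : St At (T ∪ {x}) (k + 1) := by
  obtain ⟨g, n, h1, h2, h3⟩ := h
  refine ⟨Function.update g n x, n + 1, by omega, h2.snoc (hx.imp id ?_), ?_⟩
  · rintro ⟨a, ha, b, hb, h4⟩
    obtain ⟨i, hi, rfl⟩ := h3 a ha
    obtain ⟨j, hj, rfl⟩ := h3 b hb
    exact ⟨i, hi, j, hj, h4⟩
  · rintro y (hy | rfl)
    · obtain ⟨i, hi, rfl⟩ := h3 y hy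
      exact ⟨i, by omega, Function.update_of_ne hi.ne _ _⟩
    · exact ⟨n, by omega, Function.update_self _ _ _⟩

/-- A computed element can be made the last step. -/
theorem St.last {x : R} {c : ℕ} (h : St At {x} c) :
    ∃ (m : ℕ) (g : Fin (m + 1) → R), m ≤ c ∧
      (∀ i : Fin (m + 1), g i ∈ At ∨
        ∃ a b : Fin (m + 1), a < i ∧ b < i ∧ (g i = g a + g b ∨ g i = g a * g b)) ∧
      g (Fin.last m) = x := by
  obtain ⟨g, n, h1, h2, h3⟩ := h
  obtain ⟨m, hm, h4⟩ := h3 x rfl
  refine ⟨m, fun i => g i, by omega, fun i => (h2 i (by omega)).imp id ?_, h4⟩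
  rintro ⟨a, ha, b, hb, h5⟩
  exact ⟨⟨a, by omega⟩, ⟨b, by omega⟩, ha, hb, h5⟩

namespace Reach

variable {A A' B B' D : Set R} {c c' : ℕ} {x y : R}

theorem st (h : Reach At ∅ c B) : St At B c := by
  have h1 := h ∅ 0 subset_rfl ⟨fun _ => 0, 0, le_rfl, fun i hi => absurd hi (by omega),
    fun x hx => absurd hx (Set.notMem_empty x)⟩
  rwa [Set.empty_union, zero_add] at h1

theorem mono (h : Reach At A c B) (hA : A ⊆ A') (hc : c ≤ c') (hB : B' ⊆ B) :
    Reach At A' c' B' := fun T k hT hk =>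
  (h T k (hA.trans hT) hk).mono (Set.union_subset_union_right _ hB) (by omega)

theorem le (h : Reach At A c B) (hc : c ≤ c') : Reach At A c' B :=
  h.mono subset_rfl hc subset_rfl

theorem of_subset (h : B ⊆ A) : Reach At A 0 B := fun _ _ hT hk =>
  hk.mono (Set.union_subset subset_rfl (h.trans hT)) le_rfl

theorem of_mem (h : x ∈ A) : Reach At A 0 {x} := of_subset (Set.singleton_subset_iff.2 h)

theorem seq (h : Reach At A c B) (h' : Reach At (A ∪ B) c' D) : Reach At A (c + c') (B ∪ D) := by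
  intro T k hT hk
  have h1 := h' _ _ (Set.union_subset_union_left _ hT) (h T k hT hk)
  rwa [Set.union_assoc, add_assoc] at h1

theorem trans (h : Reach At A c B) (h' : Reach At B c' D) : Reach At A (c + c') D :=
  (h.seq (h'.mono Set.subset_union_right le_rfl subset_rfl)).mono subset_rfl le_rfl
    Set.subset_union_right

theorem union (h : Reach At A c B) (h' : Reach At A c' D) : Reach At A (c + c') (B ∪ D) :=
  h.seq (h'.mono Set.subset_union_left le_rfl subset_rfl)

theorem atom (h : x ∈ At) : Reach At A 1 {x} := fun _ _ _ hk => hk.step (Or.inl h)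

theorem add (h : Reach At A c {x}) (h' : Reach At A c' {y}) : Reach At A (c + c' + 1) {x + y} :=
  (h.union h').trans fun _ _ hT hk =>
    hk.step (Or.inr ⟨x, hT (Or.inl rfl), y, hT (Or.inr rfl), Or.inl rfl⟩)

theorem mul (h : Reach At A c {x}) (h' : Reach At A c' {y}) : Reach At A (c + c' + 1) {x * y} :=
  (h.union h').trans fun _ _ hT hk =>
    hk.step (Or.inr ⟨x, hT (Or.inl rfl), y, hT (Or.inr rfl), Or.inr rfl⟩)

theorem biUnion {ι : Type*} (s : Finset ι) {F : ι → Set R} (h : ∀ i ∈ s, Reach At A c (F i)) :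
    Reach At A (s.card * c) (⋃ i ∈ s, F i) := by
  classical
  induction s using Finset.induction_on with
  | empty => simpa using of_subset (Set.empty_subset A)
  | insert a s ha ih =>
    rw [Finset.set_biUnion_insert, card_insert_of_notMem ha, add_mul, one_mul, add_comm]
    exact (h a (mem_insert_self _ _)).union (ih fun i hi => h i (mem_insert_of_mem hi))

theorem iUnion {ι : Type*} [Fintype ι] {F : ι → Set R} (h : ∀ i, Reach At A c (F i)) :
    Reach At A (Fintype.card ι * c) (⋃ i, F i) := by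
  simpa using biUnion univ fun i _ => h i

theorem range {ι : Type*} [Fintype ι] {f : ι → R} (h : ∀ i, Reach At A c {f i}) :
    Reach At A (Fintype.card ι * c) (Set.range f) := by
  simpa using iUnion h

theorem sum (h0 : (0 : R) ∈ At) {ι : Type*} (s : Finset ι) {f : ι → R}
    (h : ∀ i ∈ s, Reach At A c {f i}) : Reach At A (s.card * (c + 1) + 1) {∑ i ∈ s, f i} := by
  classical
  induction s using Finset.induction_on with
  | empty => simpa using atom h0
  | insert a s ha ih =>
    rw [sum_insert ha, card_insert_of_notMem ha]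
    exact ((h a (mem_insert_self _ _)).add (ih fun i hi => h i (mem_insert_of_mem hi))).le
      (le_of_eq (by ring))

theorem prod (h1 : (1 : R) ∈ At) {ι : Type*} (s : Finset ι) {f : ι → R}
    (h : ∀ i ∈ s, Reach At A c {f i}) : Reach At A (s.card * (c + 1) + 1) {∏ i ∈ s, f i} := by
  classical
  induction s using Finset.induction_on with
  | empty => simpa using atom h1
  | insert a s ha ih =>
    rw [prod_insert ha, card_insert_of_notMem ha]
    exact ((h a (mem_insert_self _ _)).mul (ih fun i hi => h i (mem_insert_of_mem hi))).le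
      (le_of_eq (by ring))

theorem pow (h1 : (1 : R) ∈ At) (h : Reach At A c {x}) (e : ℕ) :
    Reach At A (e * (c + 1) + 1) {x ^ e} := by
  simpa using prod h1 (Finset.range e) (f := fun _ => x) fun _ _ => h

end Reach

/-- The `s`-th Kronecker power of an integer matrix applied to a vector. -/
def kron {ρ ξ : Type*} [Fintype ξ] (M : ρ → ξ → ℤ) {s : ℕ} (x : (Fin s → ξ) → R)
    (r : Fin s → ρ) : R :=
  ∑ w : Fin s → ξ, ((∏ l, M (r l) (w l) : ℤ) : R) * x w

theorem kron_succ {ρ ξ : Type*} [Fintype ξ] (M : ρ → ξ → ℤ) {s : ℕ} (x : (Fin (s + 1) → ξ) → R)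
    (r : Fin (s + 1) → ρ) :
    kron M x r = ∑ a : ξ, (M (r 0) a : R) * kron M (fun w => x (Fin.cons a w)) (Fin.tail r) := by
  unfold kron
  rw [← (Fin.consEquiv fun _ => ξ).sum_comp, Fintype.sum_prod_type]
  refine sum_congr rfl fun a _ => ?_
  rw [mul_sum]
  refine sum_congr rfl fun w _ => ?_
  rw [Fin.prod_univ_succ, Int.cast_mul, mul_assoc]
  rfl

/-- The method of Yates. -/
theorem yates (hZ : ∀ z : ℤ, (z : R) ∈ At) {ρ ξ : Type*} [Fintype ρ] [Fintype ξ]
    (hρ : Fintype.card ρ ≤ 10) (hξ : Fintype.card ξ ≤ 10) (M : ρ → ξ → ℤ) (s : ℕ) :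
    ∀ x : (Fin s → ξ) → R, Reach At (Set.range x) (31 * s * 10 ^ s) (Set.range (kron M x)) := by
  induction s with
  | zero =>
    intro x
    refine (Reach.of_subset ?_).le (Nat.zero_le _)
    rintro _ ⟨r, rfl⟩
    exact ⟨default, by simp [kron]⟩
  | succ s ih =>
    intro x
    have h1 : Reach At (Set.range x) (Fintype.card ξ * (31 * s * 10 ^ s))
        (⋃ a : ξ, Set.range (kron M fun w => x (Fin.cons a w))) :=
      Reach.iUnion fun a => (ih _).mono (by rintro _ ⟨w, rfl⟩; exact ⟨_, rfl⟩) le_rfl subset_rfl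
    have h2 : Reach At (⋃ a : ξ, Set.range (kron M fun w => x (Fin.cons a w)))
        (Fintype.card (Fin (s + 1) → ρ) * 31) (Set.range (kron M x)) := by
      refine Reach.range fun r => ?_
      rw [kron_succ]
      refine (Reach.sum (by simpa using hZ 0) univ fun a _ => (Reach.atom (hZ _)).mul
        (Reach.of_mem (Set.mem_iUnion.2 ⟨a, Set.mem_range_self (Fin.tail r)⟩))).le ?_
      rw [card_univ]
      omega
    refine (h1.trans h2).le ?_
    rw [Fintype.card_fun, Fintype.card_fin]
    have h3 : Fintype.card ρ ^ (s + 1) ≤ 10 ^ (s + 1) := Nat.pow_le_pow_left hρ _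
    have h4 := Nat.mul_le_mul_right (31 * s * 10 ^ s) hξ
    calc _ ≤ 10 * (31 * s * 10 ^ s) + 10 ^ (s + 1) * 31 := by omega
      _ = _ := by ring

end Pool.Agent.Lib.MP_8b1d3b_lc.Up
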