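import Pool.Agent.Lib.MP_8b1d3b_lc.Up.Cost

/-! Many rectangular matrix products at once, from powers of the tensor of Schoenhage. -/

set_option autoImplicit false

namespace Pool.Agent.Lib.MP_8b1d3b_lc.Up

open Finset

variable {R : Type*} [CommRing R] {At : Set R}

/-- Letters of the first two slots: three outer ones and four inner ones. -/
abbrev LX := Fin 3 ⊕ Fin 2 × Fin 2

/-- Letters of the third slot, and names of the ten products. -/
abbrev LZ := Option (Fin 3 × Fin 3)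

def zs (i : Fin 3) (a : Fin 2) : ℤ := if i.val = a.val then 1 else if i = 2 then -1 else 0

def al : LZ → LX → ℤ
  | none, .inl _ => -1
  | none, .inr _ => 0
  | some p, .inl i => if p.1 = i then 1 else 0
  | some p, .inr k => if p.2.val = k.2.val then zs p.1 k.1 else 0

def be : LZ → LX → ℤ
  | none, .inl _ => 1
  | none, .inr _ => 0
  | some p, .inl j => if p.2 = j then 1 else 0
  | some p, .inr k => if p.1.val = k.1.val then zs p.2 k.2 else 0

def ga : LZ → LZ → ℤ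
  | _, none => 1
  | r, some p => if r = some p then 1 else 0

def tn (x y : LX) (z : LZ) : ℤ := ∑ r : LZ, al r x * be r y * ga r z

theorem tn_none : ∀ x y : LX, tn x y none = if x.isRight ∧ x = y then 1 else 0 := by
  decide +kernel

theorem tn_some : ∀ (i j : Fin 3) (p : Fin 3 × Fin 3),
    tn (.inl i) (.inl j) (some p) = if p = (i, j) then 1 else 0 := by
  decide +kernel

theorem kron_extend {ρ ξ T : Type*} [Fintype ξ] [Fintype T] (M : ρ → ξ → ℤ) {s : ℕ}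
    {e : T → Fin s → ξ} (he : Function.Injective e) (f : T → R) (r : Fin s → ρ) :
    kron M (Function.extend e f 0) r = ∑ t, ((∏ l, M (r l) (e t l) : ℤ) : R) * f t := by
  classical
  unfold kron
  symm
  refine Fintype.sum_of_injective e he _ _ (fun w hw => ?_) fun t => ?_
  · rw [Function.extend_apply' _ _ _ hw, Pi.zero_apply, mul_zero]
  · rw [he.extend_apply]

theorem reach_extend (hZ : ∀ z : ℤ, (z : R) ∈ At) {ρ ξ T : Type*} [Fintype ρ] [Fintype ξ]
    (hρ : Fintype.card ρ ≤ 10) (hξ : Fintype.card ξ ≤ 10) (M : ρ → ξ → ℤ) {s c : ℕ}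
    {e : T → Fin s → ξ} (he : Function.Injective e) {f : T → R} {S : Set R}
    (hf : ∀ t, Reach At S c {f t}) :
    Reach At S ((c + 1 + 31 * s) * 10 ^ s) (Set.range (kron M (Function.extend e f 0))) := by
  classical
  have h1 : Reach At S (Fintype.card (Fin s → ξ) * (c + 1))
      (Set.range (Function.extend e f 0)) := by
    refine Reach.range fun w => ?_
    by_cases hw : ∃ t, e t = w
    · obtain ⟨t, rfl⟩ := hw
      rw [he.extend_apply]
      exact (hf t).le (by omega)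
    · rw [Function.extend_apply' _ _ _ hw]
      exact (Reach.atom (by simpa using hZ 0)).le (by omega)
  refine (h1.trans (yates hZ hρ hξ M s _)).le ?_
  rw [Fintype.card_fun, Fintype.card_fin]
  have h3 := Nat.mul_le_mul_right (c + 1) (Nat.pow_le_pow_left hξ s)
  calc _ ≤ 10 ^ s * (c + 1) + 31 * s * 10 ^ s := by omega
    _ = _ := by ring

theorem tri_sum {T₁ T₂ T₃ : Type*} [Fintype T₁] [Fintype T₂] [Fintype T₃] {s : ℕ}
    (e₁ : T₁ → Fin s → LX) (e₂ : T₂ → Fin s → LX) (e₃ : T₃ → Fin s → LZ)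
    (f : T₁ → R) (g : T₂ → R) (p : T₃ → R) :
    ∑ r : Fin s → LZ, (∑ t, ((∏ l, al (r l) (e₁ t l) : ℤ) : R) * f t) *
      (∑ t, ((∏ l, be (r l) (e₂ t l) : ℤ) : R) * g t) *
      (∑ t, ((∏ l, ga (r l) (e₃ t l) : ℤ) : R) * p t) =
    ∑ t₁, ∑ t₂, ∑ t₃, ((∏ l, tn (e₁ t₁ l) (e₂ t₂ l) (e₃ t₃ l) : ℤ) : R) * (f t₁ * g t₂ * p t₃) := by
  have h : ∀ (u : T₁ → R) (v : T₂ → R) (w : T₃ → R), (∑ t, u t) * (∑ t, v t) * ∑ t, w t =
      ∑ t₁, ∑ t₂, ∑ t₃, u t₁ * v t₂ * w t₃ := by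
    intro u v w
    rw [sum_mul_sum, sum_mul]
    exact sum_congr rfl fun t₁ _ => sum_mul_sum _ _ _ _
  simp only [h]
  rw [sum_comm]
  refine sum_congr rfl fun t₁ _ => ?_
  rw [sum_comm]
  refine sum_congr rfl fun t₂ _ => ?_
  rw [sum_comm]
  refine sum_congr rfl fun t₃ _ => ?_
  unfold tn
  rw [Fintype.prod_sum, Int.cast_sum, sum_mul]
  refine sum_congr rfl fun r _ => ?_
  rw [prod_mul_distrib, prod_mul_distrib, Int.cast_mul, Int.cast_mul]
  ring

theorem reach_tri (h0 : (0 : R) ∈ At) {ι : Type*} [Fintype ι] (u v w : ι → R) :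
    Reach At (Set.range u ∪ Set.range v ∪ Set.range w) (Fintype.card ι * 3 + 1)
      {∑ r, u r * v r * w r} := by
  refine Reach.sum (c := 2) h0 univ fun r _ => ?_
  have h1 : u r ∈ Set.range u ∪ Set.range v ∪ Set.range w := Or.inl (Or.inl ⟨r, rfl⟩)
  have h2 : v r ∈ Set.range u ∪ Set.range v ∪ Set.range w := Or.inl (Or.inr ⟨r, rfl⟩)
  have h3 : w r ∈ Set.range u ∪ Set.range v ∪ Set.range w := Or.inr ⟨r, rfl⟩
  exact ((Reach.of_mem h1).mul (Reach.of_mem h2)).mul (Reach.of_mem h3)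

theorem exists_code {ι A Q : Type*} [DecidableEq ι] [Fintype A] [Fintype Q] [Inhabited Q]
    (J : Finset ι) (h : Fintype.card A ≤ Fintype.card Q ^ J.card) :
    ∃ c : A → ι → Q, ∀ a a', (∀ l ∈ J, c a l = c a' l) → a = a' := by
  obtain ⟨e⟩ : Nonempty (A ↪ (J → Q)) :=
    Function.Embedding.nonempty_of_card_le (by simpa using h)
  refine ⟨fun a l => if hl : l ∈ J then e a ⟨l, hl⟩ else default, fun a a' h1 => e.injective ?_⟩
  funext l
  simpa [l.2] using h1 l l.2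

/-- A word with inner letters on `J`. -/
def wx {s : ℕ} (J : Finset (Fin s)) (a : Fin s → Fin 3) (k : Fin s → Fin 2 × Fin 2) (l : Fin s) :
    LX := if l ∈ J then .inr (k l) else .inl (a l)

def wz {s : ℕ} (J : Finset (Fin s)) (a b : Fin s → Fin 3) (l : Fin s) : LZ :=
  if l ∈ J then none else some (a l, b l)

theorem wx_inj {s : ℕ} {J J' : Finset (Fin s)} {a a' : Fin s → Fin 3}
    {k k' : Fin s → Fin 2 × Fin 2} (h : wx J a k = wx J' a' k') :
    J = J' ∧ (∀ l ∈ Jᶜ, a l = a' l) ∧ ∀ l ∈ J, k l = k' l := by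
  have h1 : J = J' := by
    ext l
    have h2 := congrFun h l
    by_cases h3 : l ∈ J <;> by_cases h4 : l ∈ J' <;> simp_all [wx]
  subst h1
  refine ⟨rfl, fun l hl => ?_, fun l hl => ?_⟩
  · simpa [wx, mem_compl.1 hl] using congrFun h l
  · simpa [wx, hl] using congrFun h l

theorem wz_inj {s : ℕ} {J J' : Finset (Fin s)} {a a' b b' : Fin s → Fin 3}
    (h : wz J a b = wz J' a' b') :
    J = J' ∧ (∀ l ∈ Jᶜ, a l = a' l) ∧ ∀ l ∈ Jᶜ, b l = b' l := by
  have h1 : J = J' := by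
    ext l
    have h2 := congrFun h l
    by_cases h3 : l ∈ J <;> by_cases h4 : l ∈ J' <;> simp_all [wz]
  subst h1
  have h2 : ∀ l ∈ Jᶜ, a l = a' l ∧ b l = b' l := fun l hl => by
    simpa [wz, mem_compl.1 hl] using congrFun h l
  exact ⟨rfl, fun l hl => (h2 l hl).1, fun l hl => (h2 l hl).2⟩

theorem tn_same {s : ℕ} (J : Finset (Fin s)) (a b : Fin s → Fin 3) (k : Fin s → Fin 2 × Fin 2) :
    ∏ l, tn (wx J a k l) (wx J b k l) (wz J a b l) = 1 := by
  refine prod_eq_one fun l _ => ?_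
  by_cases h : l ∈ J <;> simp [wx, wz, h, tn_none, tn_some]

theorem tn_ne {s : ℕ} {J₁ J₂ J₃ : Finset (Fin s)} (h₁ : J₁.card = J₃.card) (h₂ : J₂.card = J₃.card)
    {a b a' b' : Fin s → Fin 3} {k k' : Fin s → Fin 2 × Fin 2}
    (h : ∏ l, tn (wx J₁ a k l) (wx J₂ b k' l) (wz J₃ a' b' l) ≠ 0) :
    J₁ = J₃ ∧ J₂ = J₃ ∧ (∀ l ∈ J₃ᶜ, a' l = a l) ∧ (∀ l ∈ J₃ᶜ, b' l = b l) ∧
      ∀ l ∈ J₃, k l = k' l := by
  have h3 := fun l => prod_ne_zero_iff.1 h l (mem_univ l)
  have h4 : ∀ l ∈ J₃, l ∈ J₁ ∧ l ∈ J₂ ∧ k l = k' l := by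
    intro l hl
    have h5 := h3 l
    by_cases h6 : l ∈ J₁ <;> by_cases h7 : l ∈ J₂ <;> simp_all [wx, wz, tn_none]
  obtain rfl : J₃ = J₁ := eq_of_subset_of_card_le (fun l hl => (h4 l hl).1) h₁.le
  obtain rfl : J₃ = J₂ := eq_of_subset_of_card_le (fun l hl => (h4 l hl).2.1) h₂.le
  have h8 : ∀ l ∈ J₃ᶜ, a' l = a l ∧ b' l = b l := fun l hl => by
    simpa [wx, wz, mem_compl.1 hl, tn_some] using h3 l
  exact ⟨rfl, rfl, fun l hl => (h8 l hl).1, fun l hl => (h8 l hl).2, fun l hl => (h4 l hl).2.2⟩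

theorem mm (hZ : ∀ z : ℤ, (z : R) ∈ At) {D A B K : Type*} [Fintype D] [Fintype A] [Fintype B]
    [Fintype K] {s j c : ℕ} (hD : Fintype.card D ≤ s.choose j)
    (hA : Fintype.card A ≤ 3 ^ (s - j)) (hB : Fintype.card B ≤ 3 ^ (s - j))
    (hK : Fintype.card K ≤ 4 ^ j) {S : Set R} {f : D → A → K → R} {g : D → K → B → R}
    {p : D → A → B → R} (hf : ∀ d a k, Reach At S c {f d a k})
    (hg : ∀ d k b, Reach At S c {g d k b}) (hp : ∀ d a b, Reach At S c {p d a b}) :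
    Reach At S ((3 * c + 7 + 93 * s) * 10 ^ s)
      {∑ d, ∑ a, ∑ b, ∑ k, f d a k * g d k b * p d a b} := by
  classical
  obtain ⟨J⟩ : Nonempty (D ↪ powersetCard j (univ : Finset (Fin s))) :=
    Function.Embedding.nonempty_of_card_le (by simpa using hD)
  have hJ : ∀ d, (J d).1.card = j := fun d => (mem_powersetCard.1 (J d).2).2
  have hJc : ∀ d, ((J d).1ᶜ).card = s - j := fun d => by rw [card_compl, hJ, Fintype.card_fin]
  have hJi : ∀ {d d'}, (J d).1 = (J d').1 → d = d' := fun h => J.injective (Subtype.ext h)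
  choose cA hcA using fun d => exists_code (A := A) (Q := Fin 3) (J d).1ᶜ (by simpa [hJc] using hA)
  choose cB hcB using fun d => exists_code (A := B) (Q := Fin 3) (J d).1ᶜ (by simpa [hJc] using hB)
  choose cK hcK using fun d => exists_code (A := K) (Q := Fin 2 × Fin 2) (J d).1
    (by simpa [hJ] using hK)
  let e₁ : D × A × K → Fin s → LX := fun t => wx (J t.1) (cA t.1 t.2.1) (cK t.1 t.2.2)
  let e₂ : D × B × K → Fin s → LX := fun t => wx (J t.1) (cB t.1 t.2.1) (cK t.1 t.2.2)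
  let e₃ : D × A × B → Fin s → LZ := fun t => wz (J t.1) (cA t.1 t.2.1) (cB t.1 t.2.2)
  have i₁ : Function.Injective e₁ := by
    rintro ⟨d, a, k⟩ ⟨d', a', k'⟩ h
    obtain ⟨h1, h2, h3⟩ := wx_inj h
    obtain rfl := hJi h1
    rw [hcA d a a' h2, hcK d k k' h3]
  have i₂ : Function.Injective e₂ := by
    rintro ⟨d, a, k⟩ ⟨d', a', k'⟩ h
    obtain ⟨h1, h2, h3⟩ := wx_inj h
    obtain rfl := hJi h1
    rw [hcB d a a' h2, hcK d k k' h3]
  have i₃ : Function.Injective e₃ := by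
    rintro ⟨d, a, k⟩ ⟨d', a', k'⟩ h
    obtain ⟨h1, h2, h3⟩ := wz_inj h
    obtain rfl := hJi h1
    rw [hcA d a a' h2, hcB d k k' h3]
  have cX : Fintype.card LX ≤ 10 := by simp
  have cZ : Fintype.card LZ ≤ 10 := by simp
  have r₁ := reach_extend hZ cZ cX al i₁ (f := fun t => f t.1 t.2.1 t.2.2) fun t => hf _ _ _
  have r₂ := reach_extend hZ cZ cX be i₂ (f := fun t => g t.1 t.2.2 t.2.1) fun t => hg _ _ _
  have r₃ := reach_extend hZ cZ cZ ga i₃ (f := fun t => p t.1 t.2.1 t.2.2) fun t => hp _ _ _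
  have r₄ := ((r₁.union r₂).union r₃).trans (reach_tri (by simpa using hZ 0) _ _ _)
  simp only [kron_extend _ i₁, kron_extend _ i₂, kron_extend _ i₃] at r₄
  rw [tri_sum] at r₄
  have e : ∀ (t₁ : D × A × K), ∑ t₂ : D × B × K, ∑ t₃ : D × A × B,
      ((∏ l, tn (e₁ t₁ l) (e₂ t₂ l) (e₃ t₃ l) : ℤ) : R) *
        (f t₁.1 t₁.2.1 t₁.2.2 * g t₂.1 t₂.2.2 t₂.2.1 * p t₃.1 t₃.2.1 t₃.2.2) =
      ∑ b, f t₁.1 t₁.2.1 t₁.2.2 * g t₁.1 t₁.2.2 b * p t₁.1 t₁.2.1 b := by
    rintro ⟨d, a, k⟩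
    rw [← Fintype.sum_prod_type']
    symm
    refine Fintype.sum_of_injective (fun b => ((d, b, k), (d, a, b)))
      (fun b b' h => by simpa using h) _ _ ?_ fun b => ?_
    · rintro ⟨⟨d₂, b, k₂⟩, d₃, a₃, b₃⟩ h
      by_contra h0
      have h1 : ∏ l, tn (e₁ (d, a, k) l) (e₂ (d₂, b, k₂) l) (e₃ (d₃, a₃, b₃) l) ≠ 0 := by
        intro h2
        exact h0 (by simp only [h2, Int.cast_zero, zero_mul])
      obtain ⟨h2, h3, h4, h5, h6⟩ := tn_ne ((hJ d).trans (hJ d₃).symm)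
        ((hJ d₂).trans (hJ d₃).symm) h1
      obtain rfl := hJi h2
      obtain rfl := hJi h3
      obtain rfl : a₃ = a := hcA _ _ _ h4
      obtain rfl : b₃ = b := hcB _ _ _ h5
      obtain rfl : k = k₂ := hcK _ _ _ h6
      exact h ⟨_, rfl⟩
    · simp only [e₁, e₂, e₃, tn_same, Int.cast_one, one_mul]
  simp only [e] at r₄
  rw [Fintype.sum_prod_type] at r₄
  simp only [Fintype.sum_prod_type] at r₄
  have e' : ∀ d a, ∑ k, ∑ b, f d a k * g d k b * p d a b =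
      ∑ b, ∑ k, f d a k * g d k b * p d a b := fun d a => sum_comm
  simp only [e'] at r₄
  refine r₄.le ?_
  have h10 : 1 ≤ 10 ^ s := Nat.one_le_pow _ _ (by norm_num)
  have h11 : Fintype.card (Fin s → LZ) = 10 ^ s := by simp
  rw [h11]
  nlinarith

end Pool.Agent.Lib.MP_8b1d3b_lc.Up
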