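import Mathlib

/-! Numerical estimates. -/

set_option autoImplicit false

namespace Pool.Agent.Lib.MP_8b1d3b_lc.Up

open Finset

theorem choose_le (a b : ℕ) : a.choose b ≤ 2 ^ (8 * b + a / 170 + 1) := by
  rcases lt_or_ge a b with h | h
  · rw [Nat.choose_eq_zero_of_lt h]
    exact Nat.zero_le _
  have h1 : (256 : ℝ) ^ (a - b) * a.choose b ≤ 257 ^ a := by
    have h2 := single_le_sum (f := fun m => (1 : ℝ) ^ m * 256 ^ (a - m) * a.choose m)
      (fun i _ => by positivity) (mem_range.2 (Nat.lt_succ_of_le h))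
    rw [← add_pow] at h2
    norm_num at h2
    exact h2
  have h3 : (257 / 256 : ℝ) ^ a ≤ 2 ^ (a / 170 + 1) :=
    calc (257 / 256 : ℝ) ^ a ≤ (257 / 256) ^ (170 * (a / 170 + 1)) :=
          pow_le_pow_right₀ (by norm_num) (by omega)
      _ ≤ 2 ^ (a / 170 + 1) := by
          rw [pow_mul]
          exact pow_le_pow_left₀ (by positivity) (by norm_num) _
  rw [div_pow, div_le_iff₀ (by positivity)] at h3
  have h4 : (256 : ℝ) ^ a = 256 ^ (a - b) * 2 ^ (8 * b) := by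
    rw [pow_mul, show (2 : ℝ) ^ 8 = 256 by norm_num, ← pow_add, Nat.sub_add_cancel h]
  have h5 : (a.choose b : ℝ) ≤ 2 ^ (8 * b + a / 170 + 1) := by
    refine le_of_mul_le_mul_left (a := (256 : ℝ) ^ (a - b)) ((h1.trans h3).trans_eq ?_)
      (by positivity)
    rw [h4]
    ring
  exact_mod_cast h5

theorem mode (j : ℕ) : 10 ^ (10 * j) ≤ (10 * j + 1) * ((10 * j).choose j * 9 ^ (9 * j)) := by
  let t : ℕ → ℕ := fun i => (10 * j).choose i * 9 ^ (10 * j - i)
  have up : ∀ i < j, t i ≤ t (i + 1) := by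
    intro i hi
    have h1 := Nat.choose_succ_right_eq (10 * j) i
    have h2 : (10 * j).choose i * 9 ≤ (10 * j).choose (i + 1) := by
      refine Nat.le_of_mul_le_mul_right ?_ (Nat.succ_pos i)
      rw [h1, mul_assoc]
      exact Nat.mul_le_mul_left _ (by omega)
    show _ * _ ≤ _ * _
    rw [show 10 * j - i = 10 * j - (i + 1) + 1 by omega, pow_succ', ← mul_assoc]
    exact Nat.mul_le_mul_right _ h2
  have down : ∀ i, j ≤ i → t (i + 1) ≤ t i := by
    intro i hi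
    show _ * _ ≤ _ * _
    rcases le_or_gt (10 * j) i with h | h
    · rw [Nat.choose_eq_zero_of_lt (Nat.lt_succ_of_le h), zero_mul]
      exact Nat.zero_le _
    have h1 := Nat.choose_succ_right_eq (10 * j) i
    have h2 : (10 * j).choose (i + 1) ≤ (10 * j).choose i * 9 := by
      refine Nat.le_of_mul_le_mul_right ?_ (Nat.succ_pos i)
      rw [h1, mul_assoc]
      exact Nat.mul_le_mul_left _ (by omega)
    rw [show 10 * j - i = 10 * j - (i + 1) + 1 by omega, pow_succ', ← mul_assoc]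
    exact Nat.mul_le_mul_right _ h2
  have top : ∀ i, t i ≤ t j := by
    intro i
    rcases le_total i j with h | h
    · induction h using Nat.decreasingInduction with
      | self => exact le_rfl
      | of_succ k hk ih => exact (up k hk).trans ih
    · induction h with
      | refl => exact le_rfl
      | step h ih => exact (down _ h).trans ih
  have h3 : 10 ^ (10 * j) = ∑ i ∈ range (10 * j + 1), t i := by
    rw [show 10 ^ (10 * j) = (1 + 9) ^ (10 * j) from rfl, add_pow]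
    exact sum_congr rfl fun i _ => by simp [t, mul_comm]
  rw [h3]
  refine (sum_le_card_nsmul _ _ (t j) fun i _ => top i).trans_eq ?_
  simp only [t, card_range, smul_eq_mul]
  rw [show 10 * j - j = 9 * j by omega]

theorem params {n : ℕ} (hn : 1200 ≤ n) : ∃ j u₀ u₁ u₂ : ℕ, n / 600 + (u₀ + (u₁ + u₂)) = n ∧
    2 ^ u₀ ≤ (10 * j).choose j ∧ 2 ^ u₁ ≤ 3 ^ (10 * j - j) ∧ 2 ^ u₂ ≤ 3 ^ (10 * j - j) ∧
    (∀ q ≤ n, 2 ^ (n / 600) * (n.choose (n / 600) * (n / 600 + n / 600 + q - 1).choose q) ≤ 4 ^ j) ∧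
    j ≤ n + 3 ∧ 10 ^ (10 * j) ≤ 10 ^ 12 * (n + 3) * 2 ^ (n - n / 600) := by
  classical
  obtain ⟨m, hm⟩ : ∃ m, m = n / 600 := ⟨_, rfl⟩
  obtain ⟨k, hk⟩ : ∃ k, k = n - m := ⟨_, rfl⟩
  rw [← hm, ← hk]
  have h0 : 2 ^ (k + 3) * (10 * (k + 3) + 1) ≤ 10 ^ (10 * (k + 3)) := by
    have h1 : 10 * (k + 3) + 1 ≤ 11 ^ (k + 3) := by
      have := one_add_mul_le_pow (a := (10 : ℤ)) (by norm_num) (k + 3)
      zify
      push_cast at this
      linarith
    calc _ ≤ 2 ^ (k + 3) * 11 ^ (k + 3) := Nat.mul_le_mul_left _ h1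
      _ ≤ _ := by
        rw [← mul_pow, pow_mul]
        exact Nat.pow_le_pow_left (by norm_num) _
  have hex : ∃ j, 2 ^ (k + 3) * (10 * j + 1) ≤ 10 ^ (10 * j) := ⟨_, h0⟩
  obtain ⟨j, hj⟩ : ∃ j, j = Nat.find hex := ⟨_, rfl⟩
  have h2 : 2 ^ (k + 3) * (10 * j + 1) ≤ 10 ^ (10 * j) := hj ▸ Nat.find_spec hex
  have h3 : j ≤ k + 3 := hj ▸ Nat.find_min' hex h0
  have h4 : k + 3 ≤ 34 * j := by
    have h5 : 2 ^ (k + 3) ≤ 2 ^ (34 * j) :=
      calc 2 ^ (k + 3) ≤ 2 ^ (k + 3) * (10 * j + 1) := Nat.le_mul_of_pos_right _ (by omega)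
        _ ≤ 10 ^ (10 * j) := h2
        _ ≤ _ := by
          rw [pow_mul, pow_mul]
          exact Nat.pow_le_pow_left (by norm_num) _
    exact (Nat.pow_le_pow_iff_right (by norm_num)).1 h5
  have h6 : 10 ^ (10 * (j - 1)) < 2 ^ (k + 3) * (10 * (j - 1) + 1) :=
    not_le.1 (Nat.find_min hex (by omega))
  have h7 : 2 ^ (k + 3) ≤ (10 * j).choose j * 9 ^ (9 * j) := by
    refine Nat.le_of_mul_le_mul_right ?_ (Nat.succ_pos (10 * j))
    exact (h2.trans (mode j)).trans_eq (mul_comm _ _)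
  obtain ⟨a, ha⟩ : ∃ a, a = Nat.log 2 ((10 * j).choose j) := ⟨_, rfl⟩
  obtain ⟨b, hb⟩ : ∃ b, b = Nat.log 2 (3 ^ (9 * j)) := ⟨_, rfl⟩
  have a1 : 2 ^ a ≤ (10 * j).choose j :=
    ha ▸ Nat.pow_log_le_self 2 (Nat.choose_pos (by omega)).ne'
  have a2 : (10 * j).choose j < 2 ^ (a + 1) := ha ▸ Nat.lt_pow_succ_log_self (by norm_num) _
  have b1 : 2 ^ b ≤ 3 ^ (9 * j) := hb ▸ Nat.pow_log_le_self 2 (by positivity)
  have b2 : 3 ^ (9 * j) < 2 ^ (b + 1) := hb ▸ Nat.lt_pow_succ_log_self (by norm_num) _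
  have h8 : k + 3 ≤ a + 1 + (b + 1 + (b + 1)) := by
    refine (Nat.pow_le_pow_iff_right (a := 2) (by norm_num)).1 (h7.trans ?_)
    rw [pow_add 2 (a + 1), pow_add 2 (b + 1), show 9 ^ (9 * j) = (3 * 3) ^ (9 * j) from rfl,
      mul_pow]
    exact Nat.mul_le_mul a2.le (Nat.mul_le_mul b2.le b2.le)
  refine ⟨j, min a k, min b (k - a), k - a - b, by omega,
    (Nat.pow_le_pow_right (by norm_num) (by omega)).trans a1, ?_, ?_, fun q hq => ?_, by omega, ?_⟩
  · rw [show 10 * j - j = 9 * j by omega]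
    exact (Nat.pow_le_pow_right (by norm_num) (by omega)).trans b1
  · rw [show 10 * j - j = 9 * j by omega]
    exact (Nat.pow_le_pow_right (by norm_num) (by omega)).trans b1
  · rw [show m + m + q - 1 = q + (m + m - 1) by omega, Nat.choose_symm_add]
    refine (Nat.mul_le_mul_left _ (Nat.mul_le_mul (choose_le _ _) (choose_le _ _))).trans ?_
    rw [← pow_add, ← pow_add, show 4 ^ j = (2 ^ 2) ^ j from rfl, ← pow_mul]
    exact Nat.pow_le_pow_right (by norm_num) (by omega)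
  · calc 10 ^ (10 * j) = 10 ^ 10 * 10 ^ (10 * (j - 1)) := by
          rw [← pow_add, show 10 + 10 * (j - 1) = 10 * j by omega]
      _ ≤ 10 ^ 10 * (2 ^ (k + 3) * (10 * (n + 3))) :=
          Nat.mul_le_mul_left _ (h6.le.trans (Nat.mul_le_mul_left _ (by omega)))
      _ = 80 * (10 ^ 10 * (n + 3) * 2 ^ k) := by ring
      _ ≤ 100 * (10 ^ 10 * (n + 3) * 2 ^ k) := Nat.mul_le_mul_right _ (by norm_num)
      _ = _ := by ring

set_option exponentiation.threshold 700 in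
theorem final (c K : ℕ) : ∃ n₀ : ℕ, ∀ n, n₀ ≤ n →
    ((c * (n + 3) ^ K * 2 ^ (n - n / 600) : ℕ) : ℝ) ≤ 1.998 ^ n := by
  have h1 := tendsto_pow_const_div_const_pow_of_one_lt K
    (r := 1.998 / 1.9977) (by norm_num)
  have hc : (0 : ℝ) < (c + 1) * 2 ^ K * 2 ^ 600 := by positivity
  obtain ⟨n₀, h2⟩ := Filter.eventually_atTop.1 (h1.eventually (gt_mem_nhds (inv_pos.2 hc)))
  refine ⟨max n₀ 3, fun n hn => ?_⟩
  have h3 := (h2 n (le_of_max_le_left hn)).le
  have h4 : (3 : ℝ) ≤ n := by exact_mod_cast le_of_max_le_right hn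
  rw [div_le_iff₀ (by positivity), inv_mul_eq_div, le_div_iff₀ hc, div_pow,
    le_div_iff₀ (by positivity)] at h3
  refine le_trans ?_ h3
  have h5 : ((n : ℝ) + 3) ^ K ≤ 2 ^ K * n ^ K := by
    rw [← mul_pow]
    exact pow_le_pow_left₀ (by positivity) (by linarith) _
  have h6 : (2 : ℝ) ^ (n - n / 600) ≤ 2 ^ 600 * 1.9977 ^ n :=
    calc (2 : ℝ) ^ (n - n / 600) ≤ 2 ^ (600 + 599 * (n / 600)) :=
          pow_le_pow_right₀ (by norm_num) (by omega)
      _ ≤ 2 ^ 600 * 1.9977 ^ (600 * (n / 600)) := by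
          rw [pow_add, pow_mul, pow_mul]
          refine mul_le_mul_of_nonneg_left (pow_le_pow_left₀ (by positivity) ?_ _) (by positivity)
          norm_num
      _ ≤ _ := mul_le_mul_of_nonneg_left (pow_le_pow_right₀ (by norm_num) (by omega))
          (by positivity)
  push_cast
  calc (c : ℝ) * (n + 3) ^ K * 2 ^ (n - n / 600)
      ≤ (c + 1) * (2 ^ K * n ^ K) * (2 ^ 600 * 1.9977 ^ n) := by gcongr; linarith
    _ = _ := by ring

end Pool.Agent.Lib.MP_8b1d3b_lc.Up
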