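import Mathlib

/-! The formula of Ryser, split along a set of columns, and division by the missing rows. -/

set_option autoImplicit false

namespace Pool.Agent.Lib.MP_8b1d3b_lc.Up

open Finset

variable {R : Type*} [CommRing R] {ι V W U : Type*} [Fintype ι] [DecidableEq ι] [Fintype V]
  [DecidableEq V] [Fintype W] [DecidableEq W] [Fintype U] [DecidableEq U]

/-- The sign of a subset. -/
def sg {V : Type*} [Fintype V] (δ : V → Bool) : ℤ := ∏ v, if δ v then 1 else -1

/-- The sum of `x` over a subset. -/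
def lin {V : Type*} [Fintype V] (x : V → R) (δ : V → Bool) : R := ∑ v, if δ v then x v else 0

omit [DecidableEq ι] in
theorem alt_sum (φ : ι → V) :
    ∑ δ : V → Bool, sg δ * (if ∀ i, δ (φ i) then 1 else 0) =
      if Function.Surjective φ then 1 else 0 := by
  classical
  have h : ∀ δ : V → Bool, sg δ * (if ∀ i, δ (φ i) then 1 else 0) =
      ∏ v, (fun v (b : Bool) => if b then (1 : ℤ) else if ∃ i, φ i = v then 0 else -1) v (δ v) := by
    intro δ
    by_cases h1 : ∀ i, δ (φ i)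
    · rw [if_pos h1, mul_one]
      refine prod_congr rfl fun v _ => ?_
      by_cases h2 : δ v
      · simp [h2]
      · have h3 : ¬∃ i, φ i = v := by
          rintro ⟨i, rfl⟩
          exact h2 (h1 i)
        simp [h2, h3]
    · rw [if_neg h1, mul_zero]
      obtain ⟨i, hi⟩ := not_forall.1 h1
      exact (prod_eq_zero (mem_univ (φ i)) (by simp [hi])).symm
  simp only [h]
  rw [← Fintype.prod_sum fun v (b : Bool) =>
    if b then (1 : ℤ) else if ∃ i, φ i = v then 0 else -1]
  by_cases h4 : Function.Surjective φ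
  · rw [if_pos h4]
    exact prod_eq_one fun v _ => by simp [h4 v]
  · rw [if_neg h4]
    obtain ⟨v, hv⟩ := not_forall.1 h4
    exact prod_eq_zero (mem_univ v) (by simp [hv])

theorem ryser (x : ι → V → R) :
    ∑ δ : V → Bool, (sg δ : R) * ∏ i, lin (x i) δ =
      ∑ φ : ι → V, if Function.Surjective φ then ∏ i, x i (φ i) else 0 := by
  have h : ∀ δ : V → Bool, (sg δ : R) * ∏ i, lin (x i) δ = ∑ φ : ι → V,
      ((sg δ * (if ∀ i, δ (φ i) then 1 else 0) : ℤ) : R) * ∏ i, x i (φ i) := by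
    intro δ
    unfold lin
    rw [Fintype.prod_sum, mul_sum]
    refine sum_congr rfl fun φ _ => ?_
    by_cases h1 : ∀ i, δ (φ i)
    · simp [h1]
    · obtain ⟨i, hi⟩ := not_forall.1 h1
      rw [if_neg h1, prod_eq_zero (mem_univ i) (by simp [hi])]
      simp
  simp only [h]
  rw [sum_comm]
  refine sum_congr rfl fun φ _ => ?_
  rw [← sum_mul, ← Int.cast_sum, alt_sum]
  split_ifs <;> simp

omit [Fintype ι] in
theorem ryser_zero (x : ι → V → R) {I : Finset ι} (h : I.card < Fintype.card V) :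
    ∑ δ : V → Bool, (sg δ : R) * ∏ i ∈ I, lin (x i) δ = 0 := by
  have h0 : ∀ δ : V → Bool, ∏ i ∈ I, lin (x i) δ = ∏ i : I, lin (x i) δ := fun δ =>
    (prod_coe_sort I fun i => lin (x i) δ).symm
  simp only [h0]
  rw [ryser fun i : I => x i]
  refine sum_eq_zero fun φ _ => if_neg fun h2 => ?_
  have h3 := Fintype.card_le_of_surjective φ h2
  rw [Fintype.card_coe] at h3
  omega

theorem ryser_per (M : Matrix ι ι R) (e : V ≃ ι) :
    M.permanent = ∑ δ : V → Bool, (sg δ : R) * ∏ i, lin (fun v => M (e v) i) δ := by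
  rw [ryser]
  refine Fintype.sum_of_injective (fun σ : Equiv.Perm ι => e.symm ∘ σ) (fun σ τ h => ?_) _ _
    (fun φ h => if_neg fun h1 => h ?_) fun σ => ?_
  · ext i
    exact e.symm.injective (congrFun h i)
  · refine ⟨Equiv.ofBijective (e ∘ φ)
      (Finite.surjective_iff_bijective.1 (e.surjective.comp h1)), ?_⟩
    funext i
    simp
  · rw [if_pos (e.symm.surjective.comp σ.surjective)]
    simp

theorem sum_elim (F : (W ⊕ U → Bool) → R) :
    ∑ δ, F δ = ∑ δ₁, ∑ δ₂, F (Sum.elim δ₁ δ₂) := by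
  rw [← (Equiv.sumArrowEquivProdArrow W U Bool).symm.sum_comp, Fintype.sum_prod_type]
  rfl

omit [DecidableEq W] [DecidableEq U] in
theorem sg_elim (δ₁ : W → Bool) (δ₂ : U → Bool) : sg (Sum.elim δ₁ δ₂) = sg δ₁ * sg δ₂ :=
  Fintype.prod_sum_type _

omit [DecidableEq W] [DecidableEq U] in
theorem lin_elim (x : W ⊕ U → R) (δ₁ : W → Bool) (δ₂ : U → Bool) :
    lin x (Sum.elim δ₁ δ₂) = lin (fun v => x (.inl v)) δ₁ + lin (fun v => x (.inr v)) δ₂ :=
  Fintype.sum_sum_type _

theorem laplace (M : Matrix ι ι R) (e : W ⊕ U ≃ ι) :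
    M.permanent = ∑ δ : U → Bool, (sg δ : R) * ∑ δ₀ : W → Bool,
      ∑ I ∈ powersetCard (Fintype.card W) univ,
        (sg δ₀ : R) * (∏ i ∈ I, lin (fun v => M (e (.inl v)) i) δ₀) *
          ∏ i ∈ Iᶜ, lin (fun v => M (e (.inr v)) i) δ := by
  have hc : Fintype.card W + Fintype.card U = Fintype.card ι := by
    rw [← Fintype.card_sum, Fintype.card_congr e]
  have h : ∀ s : Finset (Finset ι), ∑ δ : U → Bool, (sg δ : R) * ∑ δ₀ : W → Bool, ∑ I ∈ s,
        (sg δ₀ : R) * (∏ i ∈ I, lin (fun v => M (e (.inl v)) i) δ₀) *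
          ∏ i ∈ Iᶜ, lin (fun v => M (e (.inr v)) i) δ = ∑ I ∈ s,
      (∑ δ₀ : W → Bool, (sg δ₀ : R) * ∏ i ∈ I, lin (fun v => M (e (.inl v)) i) δ₀) *
        ∑ δ : U → Bool, (sg δ : R) * ∏ i ∈ Iᶜ, lin (fun v => M (e (.inr v)) i) δ := by
    intro s
    simp only [mul_sum, sum_mul]
    rw [sum_comm (s := s)]
    refine sum_congr rfl fun δ _ => ?_
    rw [sum_comm (s := s)]
    exact sum_congr rfl fun δ₀ _ => sum_congr rfl fun I _ => by ring
  have h1 := h univ
  rw [h, sum_subset (subset_univ _), ← h1, ryser_per M e, sum_elim, sum_comm]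
  · refine sum_congr rfl fun δ _ => ?_
    rw [mul_sum]
    refine sum_congr rfl fun δ₀ _ => ?_
    simp only [lin_elim, sg_elim]
    rw [Fintype.prod_add, Int.cast_mul, mul_sum, mul_sum]
    exact sum_congr rfl fun I _ => by ring
  · intro I _ hI
    have h2 : I.card ≠ Fintype.card W := by simpa using hI
    rcases h2.lt_or_gt with h3 | h3
    · rw [ryser_zero _ h3, zero_mul]
    · have h4 := card_le_univ I
      rw [ryser_zero (fun i v => M (e (.inr v)) i) (by rw [card_compl]; omega), mul_zero]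

open PowerSeries

/-- Elementary symmetric polynomials. -/
noncomputable def es (y : ι → R) (s : Finset ι) (p : ℕ) : R :=
  coeff p (∏ i ∈ s, (1 + C (y i) * X))

omit [Fintype ι] [DecidableEq ι] in
theorem es_zero (y : ι → R) (s : Finset ι) : es y s 0 = 1 := by
  simp [es, map_prod]

omit [Fintype ι] [DecidableEq ι] in
theorem es_empty (y : ι → R) (p : ℕ) : es y ∅ (p + 1) = 0 := by
  simp [es, coeff_one]

omit [Fintype ι] in
theorem es_insert (y : ι → R) {s : Finset ι} {a : ι} (h : a ∉ s) (p : ℕ) :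
    es y (insert a s) (p + 1) = es y s (p + 1) + y a * es y s p := by
  unfold es
  rw [prod_insert h, add_mul, one_mul, map_add, mul_assoc, coeff_C_mul, coeff_succ_X_mul]

omit [Fintype ι] in
theorem es_top (y : ι → R) (s : Finset ι) :
    es y s s.card = ∏ i ∈ s, y i ∧ ∀ p, s.card ≤ p → es y s (p + 1) = 0 := by
  induction s using Finset.induction_on with
  | empty => exact ⟨es_zero _ _, fun p _ => es_empty _ _⟩
  | insert a s ha ih =>
    rw [card_insert_of_notMem ha, es_insert y ha, ih.1, ih.2 _ le_rfl, zero_add, prod_insert ha]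
    refine ⟨rfl, fun p hp => ?_⟩
    obtain ⟨q, rfl⟩ : ∃ q, p = q + 1 := ⟨p - 1, by omega⟩
    rw [es_insert y ha, ih.2 _ (by omega), ih.2 _ (by omega), mul_zero, add_zero]

theorem geom_mul (y : R) : (1 + C y * X) * PowerSeries.mk (fun e => (-y) ^ e) = 1 := by
  ext p
  rw [add_mul, one_mul, map_add, mul_assoc, coeff_C_mul]
  cases p with
  | zero => simp
  | succ p => simp [coeff_succ_X_mul, coeff_one, pow_succ, mul_comm]

theorem divide (y : ι → R) (I : Finset ι) :
    ∏ i ∈ Iᶜ, y i = ∑ r ∈ antidiagonal Iᶜ.card,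
      es y univ r.1 * coeff r.2 (∏ i ∈ I, PowerSeries.mk fun e => (-y i) ^ e) := by
  rw [← (es_top y Iᶜ).1]
  unfold es
  rw [← coeff_mul, ← prod_mul_prod_compl I, mul_right_comm, ← prod_mul_distrib]
  simp only [geom_mul, prod_const_one, one_mul]

theorem lowrank (m q : ℕ) : ∃ (T : Finset (Fin m ⊕ Fin m →₀ ℕ)) (c : (Fin m ⊕ Fin m →₀ ℕ) → ℤ),
    T.card ≤ (m + m + q - 1).choose q ∧ (∀ μ ∈ T, ∀ t, μ t ≤ q) ∧
    ∀ (R : Type _) [CommRing R] (a b : Fin m → R),
      coeff q (∏ t, PowerSeries.mk fun e => (-(a t + b t)) ^ e) =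
        ∑ μ ∈ T, (c μ : R) * (∏ t, a t ^ μ (.inl t)) * ∏ t, b t ^ μ (.inr t) := by
  let p : MvPolynomial (Fin m ⊕ Fin m) ℤ := ∑ l ∈ finsuppAntidiag univ q,
    ∏ t : Fin m, (-(MvPolynomial.X (.inl t) + MvPolynomial.X (.inr t))) ^ l t
  have hp : p.IsHomogeneous q := by
    refine MvPolynomial.IsHomogeneous.sum _ _ _ fun l hl => ?_
    rw [← (mem_finsuppAntidiag.1 hl).1]
    refine MvPolynomial.IsHomogeneous.prod _ _ _ fun t _ => ?_
    simpa using ((MvPolynomial.isHomogeneous_X ℤ (Sum.inl t)).add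
      (MvPolynomial.isHomogeneous_X ℤ (Sum.inr t))).neg.pow (l t)
  have hs : p.support ⊆ finsuppAntidiag univ q := by
    intro μ hμ
    refine mem_finsuppAntidiag.2 ⟨?_, subset_univ _⟩
    have h1 := hp (MvPolynomial.mem_support_iff.1 hμ)
    rw [← h1, ← Finsupp.degree_eq_sum, Finsupp.degree_eq_weight_one]
    rfl
  refine ⟨p.support, fun μ => p.coeff μ, ?_, fun μ hμ t => ?_, fun R _ a b => ?_⟩
  · simpa [card_finsuppAntidiag_nat_eq_choose] using card_le_card hs
  · rw [← (mem_finsuppAntidiag.1 (hs hμ)).1]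
    exact single_le_sum (fun i _ => Nat.zero_le (μ i)) (mem_univ t)
  · have h2 := MvPolynomial.eval₂_eq' (Int.castRingHom R) (Sum.elim a b) p
    simp only [Fintype.prod_sum_type, Sum.elim_inl, Sum.elim_inr, eq_intCast, ← mul_assoc] at h2
    rw [← h2, coeff_prod, ← MvPolynomial.coe_eval₂Hom]
    simp [p, map_sum, map_prod]

end Pool.Agent.Lib.MP_8b1d3b_lc.Up
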