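import Pool.Agent.Lib.MP_8b1d3b_lc.Up.MM
import Pool.Agent.Lib.MP_8b1d3b_lc.Up.Ryser
import Pool.Agent.Lib.MP_8b1d3b_lc.Up.Num

/-! The permanent as a short sum of rectangular matrix products, and the cost of it. -/

set_option autoImplicit false

namespace Pool.Agent.Lib.MP_8b1d3b_lc.Up

open Finset

variable {R : Type*} [CommRing R] {At S : Set R}

theorem reach_lin (hZ : ∀ z : ℤ, (z : R) ∈ At) {V : Type*} [Fintype V] {n : ℕ}
    (hV : Fintype.card V ≤ n) {x : V → R} (hx : ∀ v, x v ∈ At) (δ : V → Bool) :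
    Reach At S (2 * n + 1) {lin x δ} := by
  have h0 : (0 : R) ∈ At := by simpa using hZ 0
  refine (Reach.sum (c := 1) h0 univ fun v _ => Reach.atom ?_).le (by rw [card_univ]; omega)
  split_ifs
  exacts [hx v, h0]

theorem reach_es (hZ : ∀ z : ℤ, (z : R) ∈ At) {ι : Type*} [DecidableEq ι] (y : ι → R) (n : ℕ)
    (s : Finset ι) : Reach At (Set.range y) ((s.card + 1) * ((n + 1) * 2))
      (Set.range fun p : Fin (n + 1) => es y s p) := by
  have h1 : (1 : R) ∈ At := by simpa using hZ 1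
  induction s using Finset.induction_on with
  | empty =>
    refine (Reach.range (c := 1) fun p => Reach.atom ?_).le (by simp)
    refine Fin.cases ?_ (fun p => ?_) p
    · rwa [Fin.val_zero, es_zero]
    · rw [Fin.val_succ, es_empty]
      simpa using hZ 0
  | insert a s ha ih =>
    have h2 : Reach At (Set.range y ∪ Set.range fun p : Fin (n + 1) => es y s p)
        (Fintype.card (Fin (n + 1)) * 2) (Set.range fun p : Fin (n + 1) => es y (insert a s) p) := by
      refine Reach.range fun p => ?_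
      refine Fin.cases ?_ (fun p => ?_) p
      · rw [Fin.val_zero, es_zero]
        exact (Reach.atom h1).le (by omega)
      · rw [Fin.val_succ, es_insert y ha]
        have h3 : es y s (p + 1) ∈ Set.range y ∪ Set.range fun p : Fin (n + 1) => es y s p :=
          Or.inr ⟨p.succ, rfl⟩
        have h4 : es y s p ∈ Set.range y ∪ Set.range fun p : Fin (n + 1) => es y s p :=
          Or.inr ⟨p.castSucc, rfl⟩
        have h5 : y a ∈ Set.range y ∪ Set.range fun p : Fin (n + 1) => es y s p := Or.inl ⟨a, rfl⟩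
        exact (Reach.of_mem h3).add ((Reach.of_mem h5).mul (Reach.of_mem h4))
    refine (ih.seq h2).mono subset_rfl (le_of_eq ?_) Set.subset_union_right
    rw [card_insert_of_notMem ha, Fintype.card_fin]
    ring

theorem reach_mono (hZ : ∀ z : ℤ, (z : R) ∈ At) {m n c : ℕ} (hm : m ≤ n) {a : Fin m → R}
    (ha : ∀ t, Reach At S c {a t}) {e : Fin m → ℕ} (he : ∀ t, e t ≤ n) :
    Reach At S (n * (n * (c + 1) + 2) + 1) {∏ t, a t ^ e t} := by
  have h1 : (1 : R) ∈ At := by simpa using hZ 1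
  refine (Reach.prod (c := n * (c + 1) + 1) h1 univ fun t _ => ((ha t).pow h1 _).le ?_).le ?_
  · have := he t
    gcongr
  · rw [card_univ, Fintype.card_fin]
    gcongr

/-- An enumeration of a set with `m` elements. -/
noncomputable def en {ι : Type*} [Fintype ι] {m : ℕ} (I : powersetCard m (univ : Finset ι))
    (t : Fin m) : ι := (I.1.equivFinOfCardEq (mem_powersetCard.1 I.2).2).symm t

theorem prod_en {ι β : Type*} [Fintype ι] [CommMonoid β] {m : ℕ}
    (I : powersetCard m (univ : Finset ι)) (F : ι → β) : ∏ i ∈ I.1, F i = ∏ t, F (en I t) := by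
  rw [← prod_coe_sort, ← (I.1.equivFinOfCardEq (mem_powersetCard.1 I.2).2).symm.prod_comp]
  rfl

theorem swap3 {D A B κ : Type*} [Fintype D] [Fintype A] [Fintype B] (s : Finset κ)
    (F : κ → D → A → B → R) :
    ∑ r ∈ s, ∑ d, ∑ a, ∑ b, F r d a b = ∑ d, ∑ a, ∑ b, ∑ r ∈ s, F r d a b := by
  rw [sum_comm]
  refine sum_congr rfl fun d _ => ?_
  rw [sum_comm]
  exact sum_congr rfl fun a _ => sum_comm

theorem reach_per (hZ : ∀ z : ℤ, (z : R) ∈ At) {n m u₀ u₁ u₂ s j : ℕ} (M : Matrix (Fin n) (Fin n) R)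
    (hM : ∀ v i, M v i ∈ At) (hn : m + (u₀ + (u₁ + u₂)) = n) (h₀ : 2 ^ u₀ ≤ s.choose j)
    (h₁ : 2 ^ u₁ ≤ 3 ^ (s - j)) (h₂ : 2 ^ u₂ ≤ 3 ^ (s - j))
    (hK : ∀ q ≤ n, 2 ^ m * (n.choose m * (m + m + q - 1).choose q) ≤ 4 ^ j) :
    Reach At S ((n + 1) * ((12 * (n + 3) ^ 3 + 7 + 93 * s) * 10 ^ s + 1) + 1) {M.permanent} := by
  classical
  obtain ⟨e⟩ : Nonempty (Fin m ⊕ Fin u₀ ⊕ Fin u₁ ⊕ Fin u₂ ≃ Fin n) :=
    Fintype.card_eq.1 (by simpa using hn)
  choose T cf hT1 hT2 hT3 using lowrank m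
  let cW : (Fin m → Bool) → Fin n → R := fun δ i => lin (fun v => M (e (.inl v)) i) δ
  let c₀ : (Fin u₀ → Bool) → Fin n → R := fun δ i => lin (fun v => M (e (.inr (.inl v))) i) δ
  let c₁ : (Fin u₁ → Bool) → Fin n → R := fun δ i => lin (fun v => M (e (.inr (.inr (.inl v)))) i) δ
  let c₂ : (Fin u₂ → Bool) → Fin n → R := fun δ i => lin (fun v => M (e (.inr (.inr (.inr v)))) i) δ
  have key : M.permanent = ∑ r ∈ antidiagonal (n - m), ∑ d, ∑ a, ∑ b,
      ∑ κ : (Fin m → Bool) × powersetCard m (univ : Finset (Fin n)) × T r.2,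
        ((sg κ.1 * cf r.2 κ.2.2 : ℤ) * (∏ t, cW κ.1 (en κ.2.1 t)) *
          ∏ t, (c₀ d (en κ.2.1 t) + c₁ a (en κ.2.1 t)) ^ κ.2.2.1 (.inl t)) *
        (∏ t, c₂ b (en κ.2.1 t) ^ κ.2.2.1 (.inr t)) *
        ((sg d * (sg a * sg b) : ℤ) * es (fun i => c₀ d i + c₁ a i + c₂ b i) univ r.1) := by
    rw [swap3, laplace M e, sum_elim]
    refine sum_congr rfl fun d _ => ?_
    rw [sum_elim]
    refine sum_congr rfl fun a _ => sum_congr rfl fun b _ => ?_
    simp only [Fintype.sum_prod_type, sg_elim, lin_elim, Fintype.card_fin, ← add_assoc]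
    rw [sum_comm (s := antidiagonal (n - m)), mul_sum]
    refine sum_congr rfl fun δ _ => ?_
    rw [sum_comm (s := antidiagonal (n - m)), ← sum_coe_sort, mul_sum]
    refine sum_congr rfl fun I _ => ?_
    have hI : (I.1ᶜ).card = n - m := by
      rw [card_compl, Fintype.card_fin, (mem_powersetCard.1 I.2).2]
    rw [divide, hI, mul_sum, mul_sum]
    refine sum_congr rfl fun r _ => ?_
    rw [prod_en, prod_en, hT3, ← sum_coe_sort, mul_sum, mul_sum, mul_sum]
    refine sum_congr rfl fun μ _ => ?_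
    push_cast
    ring
  have hm : m ≤ n := by omega
  have lW : ∀ δ i, Reach At S (2 * n + 1) {cW δ i} := fun δ i =>
    reach_lin hZ (by simpa using hm) (fun _ => hM _ _) δ
  have l₀ : ∀ δ i, Reach At S (2 * n + 1) {c₀ δ i} := fun δ i =>
    reach_lin hZ (by rw [Fintype.card_fin]; omega) (fun _ => hM _ _) δ
  have l₁ : ∀ δ i, Reach At S (2 * n + 1) {c₁ δ i} := fun δ i =>
    reach_lin hZ (by rw [Fintype.card_fin]; omega) (fun _ => hM _ _) δ
  have l₂ : ∀ δ i, Reach At S (2 * n + 1) {c₂ δ i} := fun δ i =>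
    reach_lin hZ (by rw [Fintype.card_fin]; omega) (fun _ => hM _ _) δ
  rw [key]
  refine (Reach.sum (c := (3 * (4 * (n + 3) ^ 3) + 7 + 93 * s) * 10 ^ s) (by simpa using hZ 0) _
    fun r hr => ?_).le ?_
  · have hr' := mem_antidiagonal.1 hr
    refine mm hZ (by simpa using h₀) (by simpa using h₁) (by simpa using h₂) ?_ ?_ ?_ ?_
    · refine le_trans ?_ (hK r.2 (by omega))
      simp only [Fintype.card_prod, Fintype.card_fun, Fintype.card_bool, Fintype.card_fin,
        Fintype.card_coe, card_powersetCard, card_univ]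
      exact Nat.mul_le_mul_left _ (Nat.mul_le_mul_left _ (hT1 _))
    · intro d a κ
      refine (((Reach.atom (hZ _)).mul (Reach.prod (by simpa using hZ 1) univ fun t _ =>
        lW _ _)).mul (reach_mono hZ hm (fun t => (l₀ _ _).add (l₁ _ _)) fun t =>
          (hT2 _ _ κ.2.2.2 _).trans (by omega))).le ?_
      rw [card_univ, Fintype.card_fin]
      nlinarith [Nat.zero_le (n ^ 3), Nat.zero_le (n ^ 2)]
    · intro d κ b
      refine (reach_mono hZ hm (fun t => l₂ _ _) fun t =>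
          (hT2 _ _ κ.2.2.2 _).trans (by omega)).le ?_
      nlinarith [Nat.zero_le (n ^ 3), Nat.zero_le (n ^ 2)]
    · intro d a b
      have h3 := (Reach.range fun i => ((l₀ d i).add (l₁ a i)).add (l₂ b i)).trans
        (reach_es hZ _ n univ)
      refine ((Reach.atom (hZ _)).mul (h3.mono subset_rfl le_rfl
        (Set.singleton_subset_iff.2 ⟨⟨r.1, by omega⟩, rfl⟩))).le ?_
      rw [card_univ, Fintype.card_fin]
      nlinarith [Nat.zero_le (n ^ 3), Nat.zero_le (n ^ 2)]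
  · rw [Nat.card_antidiagonal, ← mul_assoc, show 3 * 4 = 12 from rfl]
    gcongr
    omega

theorem main : ∃ n₀ : ℕ, ∀ n, n₀ ≤ n → ∀ (R : Type*) [CommRing R] (At : Set R),
    (∀ z : ℤ, (z : R) ∈ At) → ∀ M : Matrix (Fin n) (Fin n) R, (∀ v i, M v i ∈ At) →
      ∃ c : ℕ, ((c + 1 : ℕ) : ℝ) ≤ 1.998 ^ n ∧ St At {M.permanent} c := by
  obtain ⟨n₀, h⟩ := final (950 * 10 ^ 12) 5
  refine ⟨max n₀ 1200, fun n hn R _ At hZ M hM => ?_⟩
  obtain ⟨j, u₀, u₁, u₂, h1, h2, h3, h4, h5, h6, h7⟩ := params (le_of_max_le_right hn)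
  refine ⟨_, le_trans ?_ (h n (le_of_max_le_left hn)), (reach_per hZ M hM h1 h2 h3 h4 h5).st⟩
  rw [Nat.cast_le]
  have h8 : n + 3 ≤ (n + 3) ^ 3 := Nat.le_self_pow (by norm_num) _
  have h9 : 1 ≤ 10 ^ (10 * j) := Nat.one_le_pow _ _ (by norm_num)
  have h10 : (12 * (n + 3) ^ 3 + 7 + 93 * (10 * j)) * 10 ^ (10 * j) + 1 ≤
      950 * (n + 3) ^ 3 * 10 ^ (10 * j) :=
    calc _ ≤ (12 * (n + 3) ^ 3 + 7 + 93 * (10 * j)) * 10 ^ (10 * j) + 1 * 10 ^ (10 * j) := by omega
      _ ≤ _ := by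
        rw [← add_mul]
        exact Nat.mul_le_mul_right _ (by omega)
  obtain ⟨X, hX⟩ : ∃ X, X = (12 * (n + 3) ^ 3 + 7 + 93 * (10 * j)) * 10 ^ (10 * j) := ⟨_, rfl⟩
  rw [← hX] at h10 ⊢
  calc (n + 1) * (X + 1) + 1 + 1 ≤ (n + 3) * (X + 1) := by nlinarith
    _ ≤ (n + 3) * (950 * (n + 3) ^ 3 * (10 ^ 12 * (n + 3) * 2 ^ (n - n / 600))) :=
        Nat.mul_le_mul_left _ (h10.trans (Nat.mul_le_mul_left _ h7))
    _ = _ := by ring

end Pool.Agent.Lib.MP_8b1d3b_lc.Up
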